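import Pool.Agent.Helper365.SP.Fin
import Pool.Agent.Y981.L2X.PolyW

/-!
The lower tail of the width of the self-avoiding polygons.
-/

set_option autoImplicit false

namespace Pool.Agent.Helper365.SQ

open H981 Finset Pool.Agent.TH795.EP Pool.Agent.TH795.EP2 Pool.Agent.Y981.L2 Pool.Agent.Helper365.SB
  Pool.Agent.Helper365.SP

/-- the proportion of the loops with `2 n` steps and width at most `r` -/
noncomputable def nw (n : ℕ) (r : ℝ) : ℝ :=
  ({f : ZMod (2 * n) → ℤ × ℤ | IsLoop (2 * n) f ∧ (width (2 * n) f : ℝ) ≤ r}.ncard : ℝ) /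
    ({f : ZMod (2 * n) → ℤ × ℤ | IsLoop (2 * n) f}.ncard : ℝ)

theorem nw_mono {n : ℕ} (hn : 1 ≤ n) {r r' : ℝ} (h : r ≤ r') : nw n r ≤ nw n r' := by
  unfold nw
  apply div_le_div_of_nonneg_right _ (Nat.cast_nonneg _)
  have h1 : {f : ZMod (2 * n) → ℤ × ℤ | IsLoop (2 * n) f ∧ (width (2 * n) f : ℝ) ≤ r}.ncard ≤
      {f : ZMod (2 * n) → ℤ × ℤ | IsLoop (2 * n) f ∧ (width (2 * n) f : ℝ) ≤ r'}.ncard := by
    apply Set.ncard_le_ncard
    · intro f hf
      exact ⟨hf.1, hf.2.trans h⟩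
    · exact (loops_finite hn).subset (fun f hf => hf.1)
  exact_mod_cast h1

theorem swp_injective {m : ℕ} : Function.Injective (swp (m := m)) := fun f g h => by
  have := congrArg swp h
  rwa [swp_swp, swp_swp] at this

/-- thin rings are narrow, after a reflection -/
theorem ring_width {n : ℕ} (hn : 1 ≤ n) {L X D : ℤ} {r : ℝ}
    (hr : ((X + 2 * D : ℤ) : ℝ) ≤ r) :
    (fs (Ring L X D) (2 * n)).card ≤
      {f : ZMod (2 * n) → ℤ × ℤ | IsLoop (2 * n) f ∧ (width (2 * n) f : ℝ) ≤ r}.ncard := by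
  refine (ring_loops hn).trans ?_
  refine Set.ncard_le_ncard_of_injOn swp ?_ swp_injective.injOn
    ((loops_finite hn).subset (fun f hf => hf.1))
  · intro f hf
    have : NeZero (2 * n) := ⟨by omega⟩
    refine ⟨swp_loop hf.1, ?_⟩
    have h0 := hf.2.2 0
    have hXD : 0 ≤ X + 2 * D := by omega
    have h1 : width (2 * n) (swp f) ≤ (X + 2 * D).toNat := by
      unfold width
      refine csSup_le (s := {w : ℕ | ∃ i j, w = ((swp f i).1 - (swp f j).1).natAbs})
        ⟨_, 0, 0, rfl⟩ ?_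
      rintro w ⟨i, j, rfl⟩
      have h2 := hf.2.2 i
      have h3 := hf.2.2 j
      unfold swp
      simp only
      omega
    refine le_trans ?_ hr
    have h2 : (width (2 * n) (swp f) : ℤ) ≤ X + 2 * D := by omega
    exact_mod_cast h2

/-- the inequality of Markov -/
theorem markov_width {n : ℕ} (hn : 2 ≤ n) {r : ℝ} (hr : 0 < r) (hm : 2 * mw n ≤ r) :
    1 / 2 ≤ nw n r := by
  classical
  obtain ⟨K0, -, hw⟩ := ln_le
  have hl : 0 < ({f : ZMod (2 * n) → ℤ × ℤ | IsLoop (2 * n) f}.ncard : ℝ) := (hw n hn).1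
  have hfin := loops_finite (show 1 ≤ n by omega)
  obtain ⟨T, hT⟩ : ∃ T : ℝ, T = ({f : ZMod (2 * n) → ℤ × ℤ | IsLoop (2 * n) f}.ncard : ℝ) := ⟨_, rfl⟩
  have e1 : (hfin.toFinset.card : ℝ) = T := by
    rw [hT, Set.ncard_eq_toFinset_card _ hfin]
  have hma : mw n = (∑ f ∈ hfin.toFinset, (width (2 * n) f : ℝ)) / T := by
    unfold mw
    rw [finsum_mem_eq_finite_toFinset_sum _ hfin, hT]
  have hT0 : 0 < T := by rw [hT]; exact hl
  have h1 : r * ((hfin.toFinset.filter (fun f => ¬ (width (2 * n) f : ℝ) ≤ r)).card : ℝ) ≤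
      mw n * T := by
    rw [hma, div_mul_cancel₀ _ hT0.ne', mul_comm, ← nsmul_eq_mul, ← Finset.sum_const]
    refine (Finset.sum_le_sum (fun f hf => ?_)).trans
      (Finset.sum_le_sum_of_subset_of_nonneg (Finset.filter_subset _ _)
        (fun f _ _ => Nat.cast_nonneg _))
    rw [Finset.mem_filter] at hf
    exact (not_le.1 hf.2).le
  have h3 : ((hfin.toFinset.filter (fun f => ¬ (width (2 * n) f : ℝ) ≤ r)).card : ℝ) ≤ T / 2 := by
    have h4 : mw n * T ≤ r * (T / 2) := by nlinarith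
    exact le_of_mul_le_mul_left (h1.trans h4) hr
  have h4 := Finset.card_filter_add_card_filter_not (s := hfin.toFinset)
    (fun f => (width (2 * n) f : ℝ) ≤ r)
  have h5 : ((hfin.toFinset.filter (fun f => (width (2 * n) f : ℝ) ≤ r)).card : ℝ) +
      ((hfin.toFinset.filter (fun f => ¬ (width (2 * n) f : ℝ) ≤ r)).card : ℝ) = T := by
    rw [← e1]
    exact_mod_cast h4
  have h6 : ((hfin.toFinset.filter (fun f => (width (2 * n) f : ℝ) ≤ r)).card : ℝ) =
      ({f : ZMod (2 * n) → ℤ × ℤ | IsLoop (2 * n) f ∧ (width (2 * n) f : ℝ) ≤ r}.ncard : ℝ) := by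
    rw [← Set.ncard_coe_finset]
    congr 2
    ext f
    simp
  unfold nw
  rw [← h6, ← hT, le_div_iff₀ hT0]
  linarith

/-- **The lower tail of the width: the lower bound.** -/
theorem width_small : ∃ K : ℝ, 0 < K ∧ ∀ N n : ℕ, 2 ≤ N → N ≤ n →
    Real.exp (-(K * ((n : ℝ) / N * Lg N))) ≤ nw n (K * (Lg N ^ 2 / mass (1 / N))) := by
  obtain ⟨A, hA, hrows⟩ := rows
  obtain ⟨C1, hC1, hRn⟩ := Rn_le' (A := A) (by linarith)
  have hm1 := mass_pos (e := 1) one_pos
  obtain ⟨B, hB⟩ : ∃ B, B = 4 * C1 + 3 * mass 1 := ⟨_, rfl⟩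
  have hB0 : 0 ≤ B := by rw [hB]; positivity
  obtain ⟨C, hC, harch⟩ := arches B hB0
  obtain ⟨K4, hK4, hln⟩ := ln_le
  obtain ⟨K5, hK5, hmean⟩ := Pool.Agent.Y981.L2X.width_mean
  obtain ⟨b, hb⟩ := pow_unbounded_of_one_lt (C + 3) (show (1 : ℝ) < 2 by norm_num)
  obtain ⟨G, hG⟩ : ∃ G : ℝ, G = (b + 3) ^ 2 := ⟨_, rfl⟩
  have hG0 : 0 ≤ G := by rw [hG]; positivity
  obtain ⟨Ka, hKa⟩ : ∃ Ka : ℝ, Ka = 8 * A + 2 * C + 20 * K4 + 6 := ⟨_, rfl⟩
  obtain ⟨Kb, hKb⟩ : ∃ Kb : ℝ, Kb = 3 * C := ⟨_, rfl⟩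
  obtain ⟨Kc, hKc⟩ : ∃ Kc : ℝ, Kc = 4 * K5 * (C + 3) * G := ⟨_, rfl⟩
  have hKa0 : 0 ≤ Ka := by rw [hKa]; positivity
  have hKb0 : 0 ≤ Kb := by rw [hKb]; positivity
  have hKc0 : 0 ≤ Kc := by rw [hKc]; positivity
  refine ⟨Ka + Kb + Kc + 3, by positivity, ?_⟩
  intro N n hN hn
  obtain ⟨K, hK⟩ : ∃ K, K = Ka + Kb + Kc + 3 := ⟨_, rfl⟩
  rw [← hK]
  have hmu := mu_pos
  have hN0 : (0 : ℝ) < N := by exact_mod_cast (by omega : 0 < N)
  have hN2 : (2 : ℝ) ≤ N := by exact_mod_cast hN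
  have hn0 : (0 : ℝ) < n := by exact_mod_cast (by omega : 0 < n)
  have hLg := Lg_ge hN
  have hx := one_le_ratio hN hn
  obtain ⟨x, hxx⟩ : ∃ x, x = (n : ℝ) / N := ⟨_, rfl⟩
  rw [← hxx] at hx ⊢
  obtain ⟨M, hM⟩ : ∃ M, M = mass (1 / (N : ℝ)) := ⟨_, rfl⟩
  have hM0 : 0 < M := by rw [hM]; exact mass_pos (by positivity)
  have hM1 : M ≤ mass 1 := by
    rw [hM]
    exact mass_mono (by positivity) (by rw [div_le_one hN0]; linarith)
  rw [← hM]
  obtain ⟨ℓ, hℓ⟩ : ∃ ℓ, ℓ = Lg N := ⟨_, rfl⟩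
  rw [← hℓ] at hLg ⊢
  have hℓ0 : 0 < ℓ := by linarith
  rcases le_or_gt (C * N * ℓ + 1) (n : ℝ) with hbig | hsmall
  · -- rings
    obtain ⟨R, hR⟩ : ∃ R, R = Rn A N := ⟨_, rfl⟩
    have hR2 : 2 ≤ R := by rw [hR]; unfold Rn; omega
    have hRge : A * Lg N ≤ R * mass (1 / N) := by rw [hR]; exact Rn_ge A hN
    have hRle : (R : ℝ) * M ≤ C1 * ℓ := by
      have := hRn N hN
      rw [← hR, ← hM, ← hℓ] at this
      calc (R : ℝ) * M ≤ (C1 * (ℓ / M)) * M := mul_le_mul_of_nonneg_right this hM0.le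
        _ = C1 * ℓ := by field_simp
    obtain ⟨X, hX⟩ : ∃ X, X = 4 * R + 1 := ⟨_, rfl⟩
    have hXm : (X : ℝ) * mass (1 / N) ≤ B * Lg N := by
      rw [← hM, ← hℓ, hX, hB]
      push_cast
      have h1 : mass 1 ≤ mass 1 * (3 * ℓ) := by
        have := mul_le_mul_of_nonneg_left (show (1 : ℝ) ≤ 3 * ℓ by linarith) hm1.le
        linarith
      have h2 : (4 * (R : ℝ) + 1) * M = 4 * (R * M) + M := by ring
      have h3 : (4 * C1 + 3 * mass 1) * ℓ = 4 * (C1 * ℓ) + mass 1 * (3 * ℓ) := by ring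
      rw [h2, h3]
      linarith
    obtain ⟨m, D, hm2, hmle, hDle, hXD, harc⟩ := harch N hN X (by omega) hXm
    rw [← hM, ← hℓ] at hDle
    rw [← hℓ] at hmle
    have hmn : m + 1 ≤ n := by
      have : ((m + 1 : ℕ) : ℝ) ≤ n := by push_cast; linarith
      exact_mod_cast this
    obtain ⟨l, hl⟩ : ∃ l, l = n - (m + 1) := ⟨_, rfl⟩
    obtain ⟨L, hLle, hrow⟩ := hrows N hN R hR2 hRge l
    obtain ⟨J, hJ⟩ : ∃ J, J = l / (2 * (N / 2)) := ⟨_, rfl⟩
    rw [← hJ] at hLle hrow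
    obtain ⟨ε, hε⟩ : ∃ ε, ε = q N (-A) := ⟨_, rfl⟩
    have hε0 : 0 < ε := by rw [hε]; exact q_pos _ _
    rw [← hε] at hrow
    -- halves
    have hh : mu ^ (n - 1) * (ε ^ (J + 2) * q N (-C)) ≤
        ((fs (Hf L X (2 * R) D) n).card : ℝ) := by
      have h1 := Hf_card L X (2 * R) D (by omega) l m
      have e1 : l + (m + 1) = n := by omega
      rw [e1] at h1
      have h2 : ((fs (Br L 0 (2 * R)) l).card : ℝ) * ((fs (Arch X D) m).card : ℝ) ≤
          ((fs (Hf L X (2 * R) D) n).card : ℝ) := by exact_mod_cast h1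
      refine le_trans ?_ h2
      have e2 : n - 1 = l + m := by omega
      rw [e2, pow_add]
      have h3 := q_pos N (-C)
      calc mu ^ l * mu ^ m * (ε ^ (J + 2) * q N (-C)) =
          (mu ^ l * ε ^ (J + 2)) * (mu ^ m * q N (-C)) := by ring
        _ ≤ _ := mul_le_mul hrow harc (by positivity) (le_trans (by positivity) hrow)
    have hring : (mu ^ (n - 1) * (ε ^ (J + 2) * q N (-C))) ^ 2 ≤
        ((fs (Ring L X D) (2 * n)).card : ℝ) := by
      have h1 := Ring_card L X (2 * R) D (by omega) (by omega) n n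
      have e1 : n + n = 2 * n := by ring
      rw [e1] at h1
      have h2 : ((fs (Hf L X (2 * R) D) n).card : ℝ) * ((fs (Hf L X (2 * R) D) n).card : ℝ) ≤
          ((fs (Ring L X D) (2 * n)).card : ℝ) := by exact_mod_cast h1
      refine le_trans ?_ h2
      rw [sq]
      have h3 := q_pos N (-C)
      exact mul_le_mul hh hh (by positivity) (le_trans (by positivity) hh)
    -- numerical bounds
    have hJle : (J : ℝ) ≤ 2 * x := by
      have h1 : J * (2 * (N / 2)) ≤ l := by rw [hJ]; exact Nat.div_mul_le_self _ _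
      have h2 : N ≤ 2 * (2 * (N / 2)) := by omega
      have h3 : J * N ≤ 2 * n := by
        calc J * N ≤ J * (2 * (2 * (N / 2))) := Nat.mul_le_mul_left _ h2
          _ = 2 * (J * (2 * (N / 2))) := by ring
          _ ≤ 2 * n := by omega
      have h4 : (J : ℝ) * N ≤ 2 * n := by exact_mod_cast h3
      rw [hxx, mul_div_assoc', le_div_iff₀ hN0]
      exact h4
    have hXD' : (X : ℝ) ≤ D := by exact_mod_cast hXD
    have hwid : (((X : ℤ) + 2 * D : ℤ) : ℝ) ≤ K * (ℓ ^ 2 / M) := by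
      push_cast
      have h2 : (X : ℝ) + 2 * D ≤ 3 * D := by linarith
      refine h2.trans ?_
      rw [mul_div_assoc', le_div_iff₀ hM0]
      have h3 : 3 * ((D : ℝ) * M) ≤ 3 * (C * ℓ ^ 2) := mul_le_mul_of_nonneg_left hDle (by norm_num)
      have h4 : K * ℓ ^ 2 = 3 * (C * ℓ ^ 2) + (Ka + Kc + 3) * ℓ ^ 2 := by rw [hK, hKb]; ring
      have h5 : 0 ≤ (Ka + Kc + 3) * ℓ ^ 2 := by positivity
      rw [h4]
      linarith
    have hra := ring_width (n := n) (by omega) (L := L) (X := X) (D := D) hwid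
    -- conclusion
    obtain ⟨hl0, hlle⟩ := hln n (by omega)
    have hl0' : 0 < ({f : ZMod (2 * n) → ℤ × ℤ | IsLoop (2 * n) f}.ncard : ℝ) := hl0
    have hlle' : ({f : ZMod (2 * n) → ℤ × ℤ | IsLoop (2 * n) f}.ncard : ℝ) ≤
        mu ^ (2 * n) * q n K4 := hlle
    unfold nw
    rw [le_div_iff₀ hl0']
    have hraR : ((fs (Ring L X D) (2 * n)).card : ℝ) ≤
        ({f : ZMod (2 * n) → ℤ × ℤ | IsLoop (2 * n) f ∧
          (width (2 * n) f : ℝ) ≤ K * (ℓ ^ 2 / M)}.ncard : ℝ) := by exact_mod_cast hra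
    refine le_trans ?_ (hring.trans hraR)
    refine le_trans (mul_le_mul_of_nonneg_left hlle' (Real.exp_pos _).le) ?_
    have e1 : mu ^ (2 * n) = (mu ^ (n - 1)) ^ 2 * mu ^ 2 := by
      rw [← pow_mul, ← pow_add]
      congr 1
      omega
    have e2 : (mu ^ (n - 1) * (ε ^ (J + 2) * q N (-C))) ^ 2 =
        (mu ^ (n - 1)) ^ 2 * (ε ^ (2 * (J + 2)) * q N (-(2 * C))) := by
      have g1 : q N (-(2 * C)) = q N (-C) * q N (-C) := by
        rw [q_mul]; congr 1; ring
      rw [g1, mul_comm 2 (J + 2), pow_mul]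
      ring
    rw [e1, e2]
    have hp : 0 < (mu ^ (n - 1)) ^ 2 := by positivity
    have e3 : Real.exp (-(K * (x * ℓ))) * ((mu ^ (n - 1)) ^ 2 * mu ^ 2 * q n K4) =
        (mu ^ (n - 1)) ^ 2 * (Real.exp (-(K * (x * ℓ))) * mu ^ 2 * q n K4) := by ring
    rw [e3]
    apply mul_le_mul_of_nonneg_left _ hp.le
    have hmu2 : mu ^ 2 ≤ Real.exp (6 * ℓ) := by
      have g1 : mu ^ 2 ≤ 4 ^ 2 := pow_le_pow_left₀ hmu.le mu_le_four 2
      have g2 : (4 : ℝ) ^ 2 = Real.exp (4 * Real.log 2) := by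
        rw [show (4 : ℝ) * Real.log 2 = ((4 : ℕ) : ℝ) * Real.log 2 by norm_num, Real.exp_nat_mul,
          Real.exp_log (by norm_num)]
        norm_num
      rw [g2] at g1
      refine g1.trans (Real.exp_le_exp.2 ?_)
      have g3 := Real.log_two_lt_d9
      linarith
    have hLn := log_split hN hn
    rw [← hxx, ← hℓ] at hLn
    have hε' : ε ^ (2 * (J + 2)) = Real.exp (-(A * ℓ * (2 * (J + 2)))) := by
      rw [hε, q_eq, ← hℓ, ← Real.exp_nat_mul]
      congr 1
      push_cast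
      ring
    rw [hε', q_eq, q_eq, ← hℓ, ← Real.exp_add]
    calc Real.exp (-(K * (x * ℓ))) * mu ^ 2 * Real.exp (K4 * Lg n) ≤
        Real.exp (-(K * (x * ℓ))) * Real.exp (6 * ℓ) * Real.exp (K4 * (20 * x * ℓ)) := by
          gcongr
      _ = Real.exp (-(K * (x * ℓ)) + 6 * ℓ + K4 * (20 * x * ℓ)) := by
          rw [Real.exp_add, Real.exp_add]
      _ ≤ _ := by
          apply Real.exp_le_exp.2
          have g1 : A * ℓ * (2 * (J + 2)) ≤ A * ℓ * (2 * (4 * x)) := by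
            apply mul_le_mul_of_nonneg_left _ (by positivity)
            linarith
          have g2 : K * (x * ℓ) = A * ℓ * (2 * (4 * x)) + 2 * C * (x * ℓ) + K4 * (20 * x * ℓ) +
              6 * (x * ℓ) + (Kb + Kc + 3) * (x * ℓ) := by rw [hK, hKa]; ring
          have g3 : ℓ ≤ x * ℓ := le_mul_of_one_le_left hℓ0.le hx
          have g4 : 0 ≤ (Kb + Kc + 3) * (x * ℓ) := by positivity
          have g5 : 2 * C * ℓ ≤ 2 * C * (x * ℓ) := mul_le_mul_of_nonneg_left g3 (by linarith)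
          rw [g2]
          linarith
  · -- short polygons
    have hxs : x ≤ (C + 3) * ℓ := by
      rw [hxx, div_le_iff₀ hN0]
      have h1 : (1 : ℝ) ≤ 3 * (ℓ * N) := by
        have := mul_le_mul (show (0.47 : ℝ) ≤ ℓ from hLg) hN2 (by norm_num) hℓ0.le
        linarith
      have h2 : (C + 3) * ℓ * N = C * N * ℓ + 3 * (ℓ * N) := by ring
      rw [h2]
      linarith
    have hLn : Lg n ≤ G * ℓ := by
      have h1 : (n : ℝ) ≤ (N : ℝ) ^ (b + 3) := by
        have h2 := Lg_le_sq (show 1 ≤ N by omega)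
        rw [← hℓ] at h2
        have h3 : (C + 3) ≤ (N : ℝ) ^ b := hb.le.trans (pow_le_pow_left₀ (by norm_num) hN2 b)
        have h4 : (n : ℝ) = x * N := by rw [hxx]; field_simp
        calc (n : ℝ) = x * N := h4
          _ ≤ ((C + 3) * ℓ) * N := mul_le_mul_of_nonneg_right hxs hN0.le
          _ ≤ ((N : ℝ) ^ b * (N : ℝ) ^ 2) * N := by gcongr
          _ = (N : ℝ) ^ (b + 3) := by ring
      have h2 : Real.log n ≤ (b + 3) * Real.log N := by
        have h3 := Real.log_le_log hn0 h1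
        rw [Real.log_pow] at h3
        push_cast at h3
        exact h3
      have h3 : 0 ≤ Real.log n := Real.log_nonneg (by exact_mod_cast (by omega : 1 ≤ n))
      rw [hℓ]
      unfold Lg
      rw [hG, ← mul_pow]
      exact pow_le_pow_left₀ h3 h2 2
    have hmas := hmean n (by omega)
    have hmn0 : 0 < mass (1 / (2 * (n : ℝ))) := mass_pos (by positivity)
    have hmm : M ≤ 2 * x * mass (1 / (2 * n)) := by
      have g1 := mass_smul (e := 1 / (2 * (n : ℝ))) (l := 2 * x) (by positivity) (by linarith)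
      have e1 : 2 * x * (1 / (2 * (n : ℝ))) = 1 / N := by rw [hxx]; field_simp
      rw [e1, ← hM] at g1
      exact g1
    have hinv : 1 / mass (1 / (2 * (n : ℝ))) ≤ 2 * x / M := by
      rw [div_le_div_iff₀ hmn0 hM0]
      linarith
    have hr0 : 0 < K * (ℓ ^ 2 / M) := by
      have : 0 < K := by rw [hK]; positivity
      positivity
    have hmar : 2 * mw n ≤ K * (ℓ ^ 2 / M) := by
      have e4 : Real.log n ^ 2 = Lg n := rfl
      rw [e4] at hmas
      have hLn0 : 0 ≤ Lg n := sq_nonneg _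
      have h3 : mw n ≤ K5 * (2 * x / M) * (G * ℓ) := by
        refine hmas.trans ?_
        gcongr
      have h4 : 2 * (K5 * (2 * x / M) * (G * ℓ)) = (4 * K5 * G * (ℓ / M)) * x := by
        field_simp
        ring
      have h5 : (4 * K5 * G * (ℓ / M)) * x ≤ (4 * K5 * G * (ℓ / M)) * ((C + 3) * ℓ) :=
        mul_le_mul_of_nonneg_left hxs (by positivity)
      have h6 : (4 * K5 * G * (ℓ / M)) * ((C + 3) * ℓ) = Kc * (ℓ ^ 2 / M) := by
        rw [hKc]
        field_simp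
      have h7 : Kc * (ℓ ^ 2 / M) ≤ K * (ℓ ^ 2 / M) := by
        apply mul_le_mul_of_nonneg_right _ (by positivity)
        rw [hK]
        linarith
      linarith
    refine le_trans ?_ (markov_width (by omega) hr0 hmar)
    have h1 : Real.exp (-(K * (x * ℓ))) ≤ Real.exp (-1) := by
      apply Real.exp_le_exp.2
      have h2 : (3 : ℝ) ≤ K := by rw [hK]; linarith
      have h3 : ℓ ≤ x * ℓ := le_mul_of_one_le_left hℓ0.le hx
      have h4 : 3 * (x * ℓ) ≤ K * (x * ℓ) := mul_le_mul_of_nonneg_right h2 (by positivity)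
      linarith
    refine h1.trans ?_
    rw [Real.exp_neg, inv_eq_one_div]
    apply one_div_le_one_div_of_le (by norm_num)
    have := Real.add_one_le_exp (1 : ℝ)
    linarith

/-- the vertices of a polygon lie in its box -/
theorem card_box {n : ℕ} (hn : 1 ≤ n) {f : ZMod (2 * n) → ℤ × ℤ} (hf : IsLoop (2 * n) f) :
    2 * n ≤ (width (2 * n) f + 1) * (width (2 * n) (swp f) + 1) := by
  classical
  have : NeZero (2 * n) := ⟨by omega⟩
  obtain ⟨j1, h3⟩ := Finite.exists_min (fun k : ZMod (2 * n) => (f k).1)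
  obtain ⟨j2, h4⟩ := Finite.exists_min (fun k : ZMod (2 * n) => (f k).2)
  have h5 : ∀ i, (f i).1 - (f j1).1 ≤ width (2 * n) f := by
    intro i
    have h6 : ((f i).1 - (f j1).1).natAbs ≤ width (2 * n) f :=
      le_csSup (width_set hn hf) ⟨i, j1, rfl⟩
    omega
  have h7 : ∀ i, (f i).2 - (f j2).2 ≤ width (2 * n) (swp f) := by
    intro i
    have h6 : ((f i).2 - (f j2).2).natAbs ≤ width (2 * n) (swp f) :=
      le_csSup (width_set hn (swp_loop hf)) ⟨i, j2, rfl⟩
    omega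
  have h8 : Fintype.card (ZMod (2 * n)) ≤
      (Finset.Icc (f j1).1 ((f j1).1 + width (2 * n) f) ×ˢ
        Finset.Icc (f j2).2 ((f j2).2 + width (2 * n) (swp f))).card := by
    rw [← Finset.card_univ]
    apply Finset.card_le_card_of_injOn f
    · intro i _
      rw [Finset.mem_coe, Finset.mem_product, Finset.mem_Icc, Finset.mem_Icc]
      have g1 := h3 i
      have g2 := h4 i
      have g3 := h5 i
      have g4 := h7 i
      exact ⟨⟨g1, by omega⟩, g2, by omega⟩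
    · exact hf.2.1.injOn
  rw [ZMod.card, Finset.card_product, Int.card_Icc, Int.card_Icc] at h8
  refine h8.trans (le_of_eq ?_)
  congr 1 <;> omega

/-- **The lower tail of the width: the upper bound.** -/
theorem width_upper : ∃ K : ℝ, 0 < K ∧ ∀ N n W : ℕ, 2 ≤ N → N ≤ n → 1 ≤ W →
    K * W * Lg N ≤ N * mass (1 / N) →
    nw n W ≤ Real.exp (-((n : ℝ) * mass (1 / N) / (K * W))) := by
  obtain ⟨K1, hK1, hpw⟩ := Pool.Agent.Y981.L2X.pw_legendre
  have hm1 := mass_pos (e := 1) one_pos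
  refine ⟨18 + 80 * K1 + 9 * mass 1, by positivity, ?_⟩
  intro N n W hN hn hW hc
  obtain ⟨K, hK⟩ : ∃ K, K = 18 + 80 * K1 + 9 * mass 1 := ⟨_, rfl⟩
  rw [← hK] at hc ⊢
  have hK0 : 0 < K := by rw [hK]; positivity
  have hN0 : (0 : ℝ) < N := by exact_mod_cast (by omega : 0 < N)
  have hN2 : (2 : ℝ) ≤ N := by exact_mod_cast hN
  have hn0 : (0 : ℝ) < n := by exact_mod_cast (by omega : 0 < n)
  have hNn : (N : ℝ) ≤ n := by exact_mod_cast hn
  have hW1 : (1 : ℝ) ≤ W := by exact_mod_cast hW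
  have hLg := Lg_ge hN
  obtain ⟨M, hM⟩ : ∃ M, M = mass (1 / (N : ℝ)) := ⟨_, rfl⟩
  have hM0 : 0 < M := by rw [hM]; exact mass_pos (by positivity)
  have hM1 : M ≤ mass 1 := by
    rw [hM]
    exact mass_mono (by positivity) (by rw [div_le_one hN0]; linarith)
  rw [← hM] at hc ⊢
  obtain ⟨ℓ, hℓ⟩ : ∃ ℓ, ℓ = Lg N := ⟨_, rfl⟩
  have hLn := log_split hN hn
  rw [← hℓ] at hLg hc hLn
  have hℓ0 : 0 < ℓ := by linarith
  have hWℓ : 0 < (W : ℝ) * ℓ := by positivity
  -- consequences of the condition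
  have hc1 : 8 * (W : ℝ) ≤ N * M := by
    refine le_trans ?_ hc
    have : 8 * (W : ℝ) ≤ 18 * W * ℓ := by nlinarith
    have h2 : 18 * (W : ℝ) * ℓ ≤ K * W * ℓ := by
      have : 18 * ((W : ℝ) * ℓ) ≤ K * (W * ℓ) :=
        mul_le_mul_of_nonneg_right (by rw [hK]; linarith) hWℓ.le
      linarith
    linarith
  have hc2 : 80 * K1 * ((W : ℝ) * ℓ) ≤ N * M := by
    refine le_trans ?_ hc
    have : 80 * K1 * ((W : ℝ) * ℓ) ≤ K * (W * ℓ) :=
      mul_le_mul_of_nonneg_right (by rw [hK]; linarith) hWℓ.le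
    linarith
  have hc3 : 4 * (W : ℝ) ≤ n := by
    have h1 : 9 * mass 1 * ((W : ℝ) * ℓ) ≤ N * mass 1 := by
      have h2 : 9 * mass 1 * ((W : ℝ) * ℓ) ≤ K * (W * ℓ) :=
        mul_le_mul_of_nonneg_right (by rw [hK]; linarith) hWℓ.le
      have h3 := mul_le_mul_of_nonneg_left hM1 hN0.le
      linarith
    have h4 : 9 * ((W : ℝ) * ℓ) ≤ N := by
      have h5 : mass 1 * (9 * ((W : ℝ) * ℓ)) ≤ mass 1 * N := by linarith
      exact le_of_mul_le_mul_left h5 hm1
    nlinarith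
  -- the height
  obtain ⟨k, hk⟩ : ∃ k, k = ⌈(n : ℝ) / (2 * W)⌉₊ := ⟨_, rfl⟩
  have hk1 : (n : ℝ) / (2 * W) ≤ k := by rw [hk]; exact Nat.le_ceil _
  have hk2 : (k : ℝ) < (n : ℝ) / (2 * W) + 1 := by
    rw [hk]; exact Nat.ceil_lt_add_one (by positivity)
  have hk0 : (0 : ℝ) < k := lt_of_lt_of_le (by positivity) hk1
  have hk0' : 1 ≤ k := by exact_mod_cast hk0
  have hn4 : (4 : ℝ) ≤ n := by linarith
  have hkn : k < n := by
    have h1 : (n : ℝ) / (2 * W) ≤ n / 2 := by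
      apply div_le_div_of_nonneg_left hn0.le (by norm_num) (by linarith)
    have : (k : ℝ) < n := by linarith
    exact_mod_cast this
  have hsub : nw n W ≤ pw n k := by
    unfold nw pw
    apply div_le_div_of_nonneg_right _ (Nat.cast_nonneg _)
    have h1 : {f : ZMod (2 * n) → ℤ × ℤ | IsLoop (2 * n) f ∧ (width (2 * n) f : ℝ) ≤ W}.ncard ≤
        {f : ZMod (2 * n) → ℤ × ℤ | IsLoop (2 * n) f ∧ (k : ℝ) ≤ width (2 * n) f}.ncard := by
      refine Set.ncard_le_ncard_of_injOn swp ?_ swp_injective.injOn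
        ((loops_finite (show 1 ≤ n by omega)).subset (fun f hf => hf.1))
      · intro f hf
        refine ⟨swp_loop hf.1, ?_⟩
        have h2 := card_box (show 1 ≤ n by omega) hf.1
        obtain ⟨H, hH⟩ : ∃ H, H = width (2 * n) (swp f) := ⟨_, rfl⟩
        rw [← hH] at h2 ⊢
        have h3 : width (2 * n) f ≤ W := by exact_mod_cast hf.2
        have h4 : 2 * n ≤ (2 * W) * (H + 1) := h2.trans (Nat.mul_le_mul_right _ (by omega))
        have h5 : (2 : ℝ) * n ≤ (2 * W) * (H + 1) := by exact_mod_cast h4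
        have h6 : (n : ℝ) / W ≤ H + 1 := by
          rw [div_le_iff₀ (by positivity)]
          linarith
        have h7 : (n : ℝ) / (2 * W) + 2 ≤ n / W := by
          have e1 : (n : ℝ) / W = n / (2 * W) + n / (2 * W) := by field_simp; ring
          have e2 : (2 : ℝ) ≤ n / (2 * W) := by
            rw [le_div_iff₀ (by positivity)]
            linarith
          linarith
        linarith
    exact_mod_cast h1
  obtain ⟨h1, -⟩ := hpw n (by omega) k hk0' hkn
  have h2 := h1 (1 / (N : ℝ)) (by positivity)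
  rw [← hM] at h2
  have hLn0 : Real.log n ^ 2 = Lg n := rfl
  rw [hLn0] at h2
  have h3 : (n : ℝ) * M / W ≤ 2 * k * M := by
    have e1 : (n : ℝ) * M / W = 2 * (n / (2 * W)) * M := by field_simp
    rw [e1]
    have := mul_le_mul_of_nonneg_right hk1 hM0.le
    nlinarith
  have h4 : 2 * (n : ℝ) * (1 / N) ≤ (1 / 4) * (n * M / W) := by
    have e1 : 2 * (n : ℝ) * (1 / N) = 2 * n / N := by ring
    have e2 : (1 / 4 : ℝ) * (n * M / W) = n * M / (4 * W) := by
      field_simp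
    rw [e1, e2, div_le_div_iff₀ hN0 (by positivity)]
    have := mul_le_mul_of_nonneg_left hc1 hn0.le
    linarith
  have h5 : K1 * Lg n ≤ (1 / 4) * (n * M / W) := by
    have h6 : K1 * Lg n ≤ K1 * (20 * ((n : ℝ) / N) * ℓ) := mul_le_mul_of_nonneg_left hLn hK1
    refine h6.trans ?_
    have e1 : K1 * (20 * ((n : ℝ) / N) * ℓ) = 20 * K1 * n * ℓ / N := by ring
    have e2 : (1 / 4 : ℝ) * (n * M / W) = n * M / (4 * W) := by
      field_simp
    rw [e1, e2, div_le_div_iff₀ hN0 (by positivity)]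
    have := mul_le_mul_of_nonneg_left hc2 hn0.le
    linarith
  have h6 : Real.log (pw n k) ≤ -((1 / 2) * (n * M / W)) := by linarith
  have h7 : -((1 / 2) * (n * M / W)) ≤ -((n : ℝ) * M / (K * W)) := by
    apply neg_le_neg
    have e1 : (1 / 2 : ℝ) * (n * M / W) = n * M / (2 * W) := by
      field_simp
    rw [e1]
    apply div_le_div_of_nonneg_left (by positivity) (by positivity)
    have : 2 ≤ K := by rw [hK]; nlinarith
    nlinarith
  have hpos : 0 ≤ pw n k := by unfold pw; positivity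
  rcases hpos.eq_or_lt with h0 | h0
  · rw [← h0] at hsub
    exact hsub.trans (Real.exp_pos _).le
  · rw [Real.log_le_iff_le_exp h0] at h6
    exact hsub.trans (h6.trans (Real.exp_le_exp.2 h7))

end Pool.Agent.Helper365.SQ
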